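import Pool.Agent.H58.BP.Mild

/-!
# Normality of the box power of `ω + 1` is a statement on sets of isolated points

The box product of countably many copies of `ω + 1` is normal if and only if any two disjoint
regular closed sets can be separated, and if and only if the relation `Far` between sets of
functions `ω → ω` has the interpolation property.
-/

set_option autoImplicit false

open Topology Set

namespace Pool.Agent.Results.MP_d75401_gt.MildNormality

open Pool.Agent.H96.BN Pool.Agent.H58.BP

theorem result :
    (@NormalSpace (ℕ → ℕ∞) boxTop ↔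
      ∀ U V : Set (ℕ → ℕ∞), IsOpen[boxTop] U → IsOpen[boxTop] V →
        Disjoint (closure[boxTop] U) (closure[boxTop] V) →
        @SeparatedNhds (ℕ → ℕ∞) boxTop (closure[boxTop] U) (closure[boxTop] V)) ∧
    (@NormalSpace (ℕ → ℕ∞) boxTop ↔
      ∀ S T : Set (ℕ → ℕ), Far S T → ∃ C : Set (ℕ → ℕ), Far S Cᶜ ∧ Far C T) :=
  main

end Pool.Agent.Results.MP_d75401_gt.MildNormality
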