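import Pool.Agent.H58.BP.Sep

/-!
# Small closed sets in the box power of `ω + 1`

In ZFC, closed sets of at most `𝔡` points (up to a set bounded modulo finite) are separated in the
box product of countably many copies of `ω + 1`, a closed set of less than `𝔡` points (up to a
bounded set) is separated from every disjoint closed set, and saturated subspaces of at most `𝔡`
points (up to a bounded set) are ultraparacompact.
-/

set_option autoImplicit false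

open Topology Set Cardinal

namespace Pool.Agent.Results.MP_d75401_gt.SmallClosedSets

open Pool.Agent.H96.BN Pool.Agent.H58.BP

/-- every family of open sets which covers `A` is refined by a family of pairwise disjoint open
sets which covers `A` -/
def Ultra (A : Set (ℕ → ℕ∞)) : Prop :=
  ∀ U : Set (Set (ℕ → ℕ∞)), (∀ V ∈ U, IsOpen[boxTop] V) → A ⊆ ⋃₀ U →
    ∃ R : Set (Set (ℕ → ℕ∞)), (∀ V ∈ R, IsOpen[boxTop] V ∧ ∃ W ∈ U, V ⊆ W) ∧
      (∀ V ∈ R, ∀ W ∈ R, V ≠ W → Disjoint V W) ∧ A ⊆ ⋃₀ R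

theorem ultra_of_rank (A : Set (ℕ → ℕ∞)) (ρ : (ℕ → ℕ∞) → Ordinal.{0}) (sA : Sat A)
    (hA : ∀ z ∈ A, ∃ h, ∀ y ∈ A, ρ y ≤ ρ z → Catch h y z) : Ultra A := by
  intro U hU hAU
  obtain ⟨R, h1, h2, h3, -⟩ := refine_cover A ρ hA U hU fun z hz y hy => hAU (sA z hz y hy)
  exact ⟨R, h1, h2, h3⟩

theorem result :
    (∀ (A : Set (ℕ → ℕ∞)) (ρ : (ℕ → ℕ∞) → Ordinal.{0}), Sat A →
      (∀ z ∈ A, ∃ h, ∀ y ∈ A, ρ y ≤ ρ z → Catch h y z) → Ultra A) ∧
    (∀ (A S : Set (ℕ → ℕ∞)) (g : ℕ → ℕ), Sat A → A ⊆ Bd g ∪ S → #S ≤ dd → Ultra A) ∧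
    (∀ (H K S : Set (ℕ → ℕ∞)) (g : ℕ → ℕ), IsClosed[boxTop] H → IsClosed[boxTop] K →
      Disjoint H K → H ∪ K ⊆ Bd g ∪ S → #S ≤ dd → @SeparatedNhds _ boxTop H K) ∧
    (∀ (H K S : Set (ℕ → ℕ∞)) (g : ℕ → ℕ), IsClosed[boxTop] H → IsClosed[boxTop] K →
      Disjoint H K → H ⊆ Bd g ∪ S → #S < dd → @SeparatedNhds _ boxTop H K) := by
  refine ⟨ultra_of_rank, ?_, ?_, ?_⟩
  · intro A S g sA hA hS
    obtain ⟨ρ, hρ⟩ := exists_rank hA hS
    exact ultra_of_rank A ρ sA hρ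
  · intro H K S g hH hK hd hA hS
    obtain ⟨ρ, hρ⟩ := exists_rank hA hS
    exact sep_of_rank hH hK hd subset_union_left ρ hρ fun z hz hz2 => absurd (Or.inr hz) hz2
  · intro H K S g hH hK hd hA hS
    exact sep_of_rank hH hK hd Subset.rfl (fun _ => 0) (fun z _ => by
      obtain ⟨h, hh⟩ := catch_mix hA hS z
      exact ⟨h, fun y hy _ => hh y hy⟩) fun z _ _ => catch_mix hA hS z

end Pool.Agent.Results.MP_d75401_gt.SmallClosedSets
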